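import Pool.Agent.helper80.SG.Spec2
import Pool.Agent.helper99.SV.HPT

/-! # sq: EQV -/

set_option autoImplicit false

namespace Pool.Agent.SG

open MvPolynomial Module Pool.Agent.SV

variable {ι κ : Type} [Fintype ι] [DecidableEq ι] [Fintype κ] [DecidableEq κ]

theorem EQV_pd (c : ι → κ) (L w : ι → ℂ) (z : ℂ) (i l : ι) (y : ι → ℂ) :
    eval y (pderiv i (hsub c Finset.univ L w z l)) =
      (1 - z) * (if i = l then 1 else 0) + z * w l * (if c i = c l then L i else 0) := by
  unfold hsub
  rw [if_pos (Finset.mem_univ l), map_add, pderiv_C_mul, pderiv_C_mul, map_sum]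
  have h1 : ∀ j, pderiv i (C (L j) * X j : MvPolynomial ι ℂ) = if j = i then C (L i) else 0 := by
    intro j
    rw [pderiv_C_mul]
    by_cases hj : j = i
    · subst hj
      rw [pderiv_X_self, mul_one, if_pos rfl]
    · rw [pderiv_X_of_ne hj, mul_zero, if_neg hj]
  rw [Finset.sum_congr rfl fun j _ => h1 j, Finset.sum_ite_eq']
  have h2 : pderiv i (X l : MvPolynomial ι ℂ) = if i = l then 1 else 0 := by
    by_cases hj : i = l
    · subst hj
      rw [pderiv_X_self, if_pos rfl]
    · rw [pderiv_X_of_ne (Ne.symm hj), if_neg hj]
  rw [h2]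
  simp only [Finset.mem_filter, Finset.mem_univ, true_and]
  by_cases h3 : i = l <;> by_cases h4 : c i = c l <;> simp [h3, h4]

/-- `∑_i y_i ∂_i h_l` is the value of the linear form `h_l` -/
theorem EQV_lin (c : ι → κ) (L w : ι → ℂ) (z : ℂ) (l : ι) (y y' : ι → ℂ) (T : Finset κ) :
    ∑ i ∈ Finset.univ.filter (fun i => c i ∈ T), y' i *
      eval y (pderiv i (hsub c Finset.univ L w z l)) =
      if c l ∈ T then eval y' (hsub c Finset.univ L w z l) else 0 := by
  have h0 : ∀ i, y' i * eval y (pderiv i (hsub c Finset.univ L w z l)) =
      (if i = l then (1 - z) * y' l else 0) + (if c i = c l then z * w l * (L i * y' i) else 0) := by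
    intro i
    rw [EQV_pd]
    by_cases h3 : i = l
    · subst h3
      simp only [if_true]
      ring
    · rw [if_neg h3, if_neg h3]
      by_cases h4 : c i = c l
      · rw [if_pos h4, if_pos h4]
        ring
      · rw [if_neg h4, if_neg h4]
        ring
  rw [Finset.sum_congr rfl fun i _ => h0 i, Finset.sum_add_distrib, Finset.sum_ite_eq']
  by_cases hl : c l ∈ T
  · rw [if_pos hl, if_pos (by simp [hl]), ← Finset.sum_filter, Finset.filter_filter]
    have h1 : Finset.univ.filter (fun a => c a ∈ T ∧ c a = c l) =
        Finset.univ.filter (fun a => c a = c l) := by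
      ext a
      simp only [Finset.mem_filter, Finset.mem_univ, true_and]
      constructor
      · exact fun h => h.2
      · intro h
        exact ⟨by rw [h]; exact hl, h⟩
    rw [h1]
    unfold hsub
    rw [if_pos (Finset.mem_univ l)]
    simp only [map_add, map_mul, eval_C, map_sum, eval_X]
    rw [Finset.mul_sum]
  · rw [if_neg hl, if_neg (by simp [hl]), zero_add]
    refine Finset.sum_eq_zero fun i hi => ?_
    simp only [Finset.mem_filter, Finset.mem_univ, true_and] at hi
    rw [if_neg]
    intro h
    rw [h] at hi
    exact hl hi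

theorem EQV (hHM2 : HM2_stmt) (hHOM : HOM_stmt) (hCHN : CHN_stmt) : EQV_stmt := by
  intro ι κ _ _ _ _ c d L w z
  refine ⟨∏ k, ((1 - z) * (1 - z + z * Lval c Finset.univ L w k)) ^ d k, fun f hf => ?_⟩
  have hval : ∀ x : ι → ℂ, (fun i => eval (hpt c Finset.univ L w z x) (hsub c Finset.univ L w z i)) =
      fun i => ((1 - z) * (1 - z + z * Lval c Finset.univ L w (c i))) * x i := by
    intro x
    funext i
    exact HPT_val c Finset.univ L w z x i
  refine ⟨?_, ?_, ?_⟩
  · intro x
    rw [HPT_bind, hval]
    exact (hHOM c Finset.univ d f hf).1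
      (fun k => (1 - z) * (1 - z + z * Lval c Finset.univ L w k)) x
  · intro x hx i
    rw [hCHN, map_sum]
    refine Finset.sum_eq_zero fun l _ => ?_
    rw [map_mul, HPT_bind, hval]
    have h1 := (hHOM c Finset.univ d f hf).2.1
      (fun k => (1 - z) * (1 - z + z * Lval c Finset.univ L w k)) x l (hx l)
    rw [h1, zero_mul]
  · intro T x x'
    have h1 : ∀ i, eval (hpt c Finset.univ L w z x)
        (pderiv i (bind₁ (hsub c Finset.univ L w z) f)) =
        ∑ l, eval (fun i => ((1 - z) * (1 - z + z * Lval c Finset.univ L w (c i))) * x i)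
          (pderiv l f) * eval (hpt c Finset.univ L w z x) (pderiv i (hsub c Finset.univ L w z l)) := by
      intro i
      rw [hCHN, map_sum]
      refine Finset.sum_congr rfl fun l _ => ?_
      rw [map_mul, HPT_bind, hval]
    calc ∑ i ∈ Finset.univ.filter (fun i => c i ∈ T), hpt c Finset.univ L w z x' i *
        eval (hpt c Finset.univ L w z x) (pderiv i (bind₁ (hsub c Finset.univ L w z) f))
        = ∑ i ∈ Finset.univ.filter (fun i => c i ∈ T), ∑ l,
          eval (fun i => ((1 - z) * (1 - z + z * Lval c Finset.univ L w (c i))) * x i)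
            (pderiv l f) * (hpt c Finset.univ L w z x' i *
              eval (hpt c Finset.univ L w z x) (pderiv i (hsub c Finset.univ L w z l))) := by
          refine Finset.sum_congr rfl fun i _ => ?_
          rw [h1, Finset.mul_sum]
          refine Finset.sum_congr rfl fun l _ => ?_
          ring
      _ = ∑ l, eval (fun i => ((1 - z) * (1 - z + z * Lval c Finset.univ L w (c i))) * x i)
            (pderiv l f) * ∑ i ∈ Finset.univ.filter (fun i => c i ∈ T),
              (hpt c Finset.univ L w z x' i *
                eval (hpt c Finset.univ L w z x) (pderiv i (hsub c Finset.univ L w z l))) := by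
          rw [Finset.sum_comm]
          refine Finset.sum_congr rfl fun l _ => ?_
          rw [Finset.mul_sum]
      _ = ∑ l, if c l ∈ T then (∏ k, ((1 - z) * (1 - z + z * Lval c Finset.univ L w k)) ^ d k) *
            (x' l * eval x (pderiv l f)) else 0 := by
          refine Finset.sum_congr rfl fun l _ => ?_
          rw [EQV_lin]
          by_cases hl : c l ∈ T
          · rw [if_pos hl, if_pos hl, HPT_val]
            have h2 := (hHM2 c d f hf).1
              (fun k => (1 - z) * (1 - z + z * Lval c Finset.univ L w k)) x l
            calc eval (fun i => ((1 - z) * (1 - z + z * Lval c Finset.univ L w (c i))) * x i)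
                  (pderiv l f) * ((1 - z) * (1 - z + z * Lval c Finset.univ L w (c l)) * x' l)
                = ((1 - z) * (1 - z + z * Lval c Finset.univ L w (c l)) *
                  eval (fun i => ((1 - z) * (1 - z + z * Lval c Finset.univ L w (c i))) * x i)
                  (pderiv l f)) * x' l := by ring
              _ = ((∏ k, ((1 - z) * (1 - z + z * Lval c Finset.univ L w k)) ^ d k) *
                    eval x (pderiv l f)) * x' l := by rw [h2]
              _ = _ := by ring
          · rw [if_neg hl, if_neg hl, mul_zero]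
      _ = _ := by
          rw [← Finset.sum_filter, Finset.mul_sum]

end Pool.Agent.SG
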