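import Pool.Agent.helper48.SG.SpecH

/-!
sg:H13, Lebesgue points.
-/

set_option autoImplicit false

open MeasureTheory Set Metric Filter Topology
open scoped ENNReal NNReal ComplexConjugate

namespace Pool.Agent.SG

theorem H13 (hB : B05_stmt) : H13_stmt := by
  intro ν _ C hC h1 h2
  obtain ⟨hprob, hcirc, _, hball, _⟩ := hB
  have hac : ν ≪ lam := by
    refine Measure.AbsolutelyContinuous.mk fun s hs h0 => ?_
    have := h1 s hs
    rw [h0, mul_zero] at this
    exact le_antisymm this bot_le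
  have hlac : lam ≪ ν := by
    refine Measure.AbsolutelyContinuous.mk fun s hs h0 => ?_
    have := h2 s hs
    rw [h0, mul_zero] at this
    exact le_antisymm this bot_le
  set F : ℂ → ℝ := fun x => (ν.rnDeriv lam x).toReal with hF
  have hint : Integrable F lam := Measure.integrable_toReal_rnDeriv
  have hset : ∀ s, ∫ x in s, F x ∂lam = ν.real s :=
    fun s => Measure.setIntegral_toReal_rnDeriv hac s
  have hpos : ∀ᵐ x ∂lam, 0 < F x := by
    filter_upwards [Measure.rnDeriv_pos' hlac, Measure.rnDeriv_lt_top ν lam] with x hx hx2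
    exact ENNReal.toReal_pos hx.ne' hx2.ne
  have hc : ∀ᵐ x ∂lam, x ∈ circ := by
    have := measure_eq_zero_iff_ae_notMem.1 hcirc
    filter_upwards [this] with x hx
    exact not_not.1 hx
  have hleb := (Besicovitch.vitaliFamily lam).ae_tendsto_average_norm_sub hint.locallyIntegrable
  obtain ⟨ζ, hζ1, hζ2, hζ3⟩ := (hleb.and (hpos.and hc)).exists
  refine ⟨ζ, F ζ, by simpa [circ] using hζ3, hζ2, ?_⟩
  intro δ hδ K hK
  have hK0 : 0 < K := by linarith
  have ht : Tendsto (fun r : ℝ => ⨍ y in closedBall ζ r, ‖F y - F ζ‖ ∂lam) (𝓝[>] 0) (𝓝 0) :=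
    hζ1.comp (Besicovitch.tendsto_filterAt lam ζ)
  have hη : 0 < F ζ * δ / K ^ 2 := by positivity
  have hev : ∀ᶠ r : ℝ in 𝓝[>] 0, ⨍ y in closedBall ζ r, ‖F y - F ζ‖ ∂lam < F ζ * δ / K ^ 2 :=
    ht.eventually_lt_const hη
  obtain ⟨r₀, hr₀, hr⟩ := (mem_nhdsGT_iff_exists_Ioc_subset.1 hev)
  have hr₀' : (0 : ℝ) < r₀ := hr₀
  refine ⟨r₀ / K, by positivity, ?_⟩
  intro τ hτ hτ₀ S hS hSB hlS
  have hKτ : 0 < K * τ := by positivity
  have hmem : K * τ ∈ Ioc (0 : ℝ) r₀ := ⟨hKτ, by rwa [le_div_iff₀ hK0, mul_comm] at hτ₀⟩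
  have havg := hr hmem
  have havg' : ⨍ y in closedBall ζ (K * τ), ‖F y - F ζ‖ ∂lam < F ζ * δ / K ^ 2 := havg
  -- measures
  have hlS' : τ / K ≤ lam.real S := by
    rw [measureReal_def]
    exact (ENNReal.ofReal_le_iff_le_toReal (measure_ne_top _ _)).1 hlS
  have hlSpos : 0 < lam.real S := lt_of_lt_of_le (by positivity) hlS'
  have hBpos : 0 < lam.real (closedBall ζ (K * τ)) :=
    lt_of_lt_of_le hlSpos (measureReal_mono hSB)
  have hBle : lam.real (closedBall ζ (K * τ)) ≤ K * τ := by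
    rw [measureReal_def]
    exact ENNReal.toReal_le_of_le_ofReal hKτ.le (hball ζ (K * τ) hKτ.le)
  have hintd : Integrable (fun y => ‖F y - F ζ‖) lam := (hint.sub (integrable_const _)).norm
  have hBint : ∫ y in closedBall ζ (K * τ), ‖F y - F ζ‖ ∂lam ≤ F ζ * δ * lam.real S := by
    rw [setAverage_eq, smul_eq_mul, inv_mul_lt_iff₀ hBpos] at havg'
    calc ∫ y in closedBall ζ (K * τ), ‖F y - F ζ‖ ∂lam
        ≤ lam.real (closedBall ζ (K * τ)) * (F ζ * δ / K ^ 2) := havg'.le
      _ ≤ K * τ * (F ζ * δ / K ^ 2) := by gcongr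
      _ = F ζ * δ * (τ / K) := by field_simp
      _ ≤ F ζ * δ * lam.real S := by gcongr
  have hSint : |ν.real S - F ζ * lam.real S| ≤ F ζ * δ * lam.real S := by
    have e1 : ν.real S - F ζ * lam.real S = ∫ y in S, (F y - F ζ) ∂lam := by
      rw [integral_sub hint.integrableOn (integrable_const _), hset S, setIntegral_const,
        smul_eq_mul, mul_comm]
    rw [e1, ← Real.norm_eq_abs]
    calc ‖∫ y in S, (F y - F ζ) ∂lam‖ ≤ ∫ y in S, ‖F y - F ζ‖ ∂lam :=
          norm_integral_le_integral_norm _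
      _ ≤ ∫ y in closedBall ζ (K * τ), ‖F y - F ζ‖ ∂lam :=
          setIntegral_mono_set hintd.integrableOn
            (Eventually.of_forall fun y => norm_nonneg _) (hSB.eventuallyLE)
      _ ≤ F ζ * δ * lam.real S := hBint
  rw [abs_le] at hSint
  constructor
  · nlinarith [hSint.2]
  · nlinarith [hSint.1]

end Pool.Agent.SG
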