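import Pool.Agent.helper68.SG.SpecK

/-!
sg:K01, the measure `lam`.
-/

set_option autoImplicit false

open MeasureTheory Set Metric Filter Topology
open scoped ENNReal NNReal ComplexConjugate

namespace Pool.Agent.SG

theorem K01_c0 : (ENNReal.ofReal (2 * Real.pi)) ≠ 0 := by
  rw [Ne, ENNReal.ofReal_eq_zero, not_le]
  positivity

theorem K01_meas : Measurable (circleMap 0 1) := (continuous_circleMap 0 1).measurable

theorem K01 : K01_stmt := by
  refine ⟨⟨?_⟩, ?_, ?_⟩
  · unfold lam
    rw [Measure.smul_apply, Measure.map_apply K01_meas MeasurableSet.univ, preimage_univ,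
      Measure.restrict_apply_univ, Real.volume_Ioc, sub_zero, smul_eq_mul]
    exact ENNReal.inv_mul_cancel K01_c0 ENNReal.ofReal_ne_top
  · unfold lam
    have hm : MeasurableSet circᶜ := by
      unfold circ
      exact isClosed_sphere.measurableSet.compl
    rw [Measure.smul_apply, Measure.map_apply K01_meas hm]
    have : circleMap 0 1 ⁻¹' circᶜ = ∅ := by
      ext θ
      simp [circ]
    rw [this]
    simp
  · intro g hg
    have hac : ((volume : Measure ℝ).restrict (Ioc 0 (2 * Real.pi))).map (circleMap 0 1) ≪ lam := by
      unfold lam
      intro s hs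
      rw [Measure.smul_apply, smul_eq_mul, mul_eq_zero] at hs
      rcases hs with h | h
      · exact absurd h (ENNReal.inv_ne_zero.2 ENNReal.ofReal_ne_top)
      · exact h
    have hg' := hg.mono_ac hac
    unfold lam
    rw [integral_smul_measure, integral_map K01_meas.aemeasurable hg', Real.circleAverage,
      intervalIntegral.integral_of_le (by positivity), ENNReal.toReal_inv,
      ENNReal.toReal_ofReal (by positivity)]

end Pool.Agent.SG
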