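import Pool.Agent.helper17.SG.SpecM

/-!
sg:M01, harmonic measures.
-/

set_option autoImplicit false

open MeasureTheory Set Metric Filter Topology
open scoped ENNReal NNReal ComplexConjugate

namespace Pool.Agent.SG

theorem M01 (hB : B01_stmt) : M01_stmt := by
  intro Γ _ A W ν hst
  obtain ⟨_, _, hb3, hb4, hb5, _, _, hmeas, _, _⟩ := hB Γ A
  have := hst.prob
  have hae : ∀ᵐ ξ ∂ν, ‖ξ‖ = 1 := by
    rw [ae_iff]
    have h0 := hst.supp
    refine le_antisymm (le_trans (measure_mono ?_) h0.le) bot_le
    intro ξ hξ hc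
    exact hξ (by simpa [circ] using hc)
  have h5 : ∀ x E, MeasurableSet E → nux A ν x E = ν (A.act x ⁻¹' E) := by
    intro x E hE
    exact Measure.map_apply (hmeas x) hE
  have h4 : ∀ x y E, MeasurableSet E → nux A ν (x * y) E = nux A ν y (A.act x ⁻¹' E) := by
    intro x y E hE
    rw [h5 _ _ hE, h5 _ _ (hmeas x hE)]
    refine measure_congr ?_
    filter_upwards [hae] with ξ hξ
    apply propext
    change A.act (x * y) ξ ∈ E ↔ A.act x (A.act y ξ) ∈ E
    rw [hb5 x y ξ hξ.le]
  refine ⟨fun x => Measure.isProbabilityMeasure_map (hmeas x).aemeasurable, ?_, ?_, h4, h5, ?_⟩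
  · intro x
    have hm : MeasurableSet circᶜ := by
      unfold circ
      exact isClosed_sphere.measurableSet.compl
    rw [h5 x _ hm]
    refine le_antisymm (le_trans (measure_mono ?_) hst.supp.le) bot_le
    intro ξ hξ hc
    apply hξ
    have : ‖ξ‖ = 1 := by simpa [circ] using hc
    simpa [circ] using hb3 x ξ this
  · unfold nux
    have : A.act 1 =ᵐ[ν] id := by
      filter_upwards [hae] with ξ hξ
      exact hb4 ξ hξ.le
    rw [Measure.map_congr this, Measure.map_id]
  · intro E hE x
    have hs := congrArg (fun m : Measure ℂ => m (A.act x ⁻¹' E)) hst.stat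
    simp only [Measure.finsetSum_apply, Measure.smul_apply, smul_eq_mul] at hs
    rw [← h5 x E hE] at hs
    change nux A ν x E = ∑ s ∈ W.S, W.μ s * nux A ν (x * s) E
    rw [hs]
    refine Finset.sum_congr rfl fun s _ => ?_
    rw [h4 x s E hE]
    rfl

end Pool.Agent.SG
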