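import Pool.Agent.helper3.SG.SpecS

/-!
sg:S10, Zassenhaus lemma.
-/

set_option autoImplicit false

open MeasureTheory Set Metric Filter Topology
open scoped ENNReal NNReal ComplexConjugate commutatorElement

namespace Pool.Agent.SG

/-- iterated commutators -/
def S10_x {Γ : Type} [Group Γ] (w₁ w₂ : Γ) : ℕ → Γ
  | 0 => w₂
  | n + 1 => ⁅w₁, S10_x w₁ w₂ n⁆

theorem S10_dev_nonneg {Γ : Type} [Group Γ] (A : DiscRep Γ) (γ : Γ) : 0 ≤ A.dev γ := by
  unfold DiscRep.dev
  positivity

theorem S10_norm {Γ : Type} [Group Γ] (A : DiscRep Γ) (γ : Γ) (h : A.dev γ ≤ 1 / 8) :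
    ‖A.a γ‖ ≤ 2 := by
  unfold DiscRep.dev at h
  have hb := norm_nonneg (A.b γ)
  rcases min_choice ‖A.a γ - 1‖ ‖A.a γ + 1‖ with h1 | h1
  · have h2 : ‖A.a γ‖ ≤ ‖A.a γ - 1‖ + ‖(1 : ℂ)‖ := by
      have := norm_add_le (A.a γ - 1) 1
      rwa [sub_add_cancel] at this
    rw [norm_one] at h2
    rw [h1] at h
    linarith
  · have h2 : ‖A.a γ‖ ≤ ‖A.a γ + 1‖ + ‖(1 : ℂ)‖ := by
      have := norm_sub_le (A.a γ + 1) 1
      rwa [add_sub_cancel_right] at this
    rw [norm_one] at h2
    rw [h1] at h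
    linarith

theorem S10 (h02 : S02_stmt) (h04 : S04_stmt) (h06 : S06_stmt) (h09 : S09_stmt) : S10_stmt := by
  intro Γ _ hTF A hA w₁ w₂ h1 h2
  have hcomm := (h09 Γ A).2.1
  have hdisc := (h02 Γ A).2.2.2.2.2.2.2.1 hA
  have hone := (h04 Γ hTF A hA).1
  obtain ⟨hcsa, _⟩ := h06 Γ hTF A hA
  set x := S10_x w₁ w₂ with hx
  have hxs : ∀ n, x (n + 1) = ⁅w₁, x n⁆ := fun n => rfl
  have hstep : ∀ n, A.dev (x n) ≤ 1 / 8 → A.dev (x (n + 1)) ≤ A.dev (x n) / 2 := by
    intro n hn
    rw [hxs]
    have h3 := hcomm w₁ (x n)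
    have h0 := S10_dev_nonneg A w₁
    have h0' := S10_dev_nonneg A (x n)
    have h4 : 2 * A.dev w₁ * A.dev (x n) * (1 + A.dev w₁) * (1 + A.dev (x n)) ≤
        2 * (1 / 8) * A.dev (x n) * (1 + 1 / 8) * (1 + 1 / 8) := by gcongr
    linarith
  have hall : ∀ n, A.dev (x n) ≤ 1 / 8 := by
    intro n
    induction n with
    | zero => exact h2
    | succ n ih =>
      have := hstep n ih
      have h0' := S10_dev_nonneg A (x n)
      linarith
  have hmono : ∀ n k, A.dev (x (n + k)) ≤ A.dev (x n) := by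
    intro n k
    induction k with
    | zero => exact le_refl _
    | succ k ih =>
      have := hstep (n + k) (hall _)
      have h0' := S10_dev_nonneg A (x (n + k))
      rw [← add_assoc]
      linarith
  have hex : ∃ n, x n = 1 := by
    have hninj : ¬ Function.Injective x := by
      intro hinj
      have hinf := Set.infinite_range_of_injective hinj
      apply hinf
      refine (hdisc 2).subset ?_
      rintro _ ⟨n, rfl⟩
      exact S10_norm A _ (hall n)
    rw [Function.Injective] at hninj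
    push Not at hninj
    obtain ⟨i, j, hij, hne⟩ := hninj
    have key : ∀ i j : ℕ, i < j → x i = x j → x i = 1 := by
      intro i j hlt hij
      apply hone
      obtain ⟨k, rfl⟩ := Nat.exists_eq_add_of_lt hlt
      have h3 := hstep (i + k) (hall _)
      have h4 := hmono i k
      have h5 := S10_dev_nonneg A (x i)
      rw [← hij] at h3
      linarith
    rcases lt_or_gt_of_ne hne with h | h
    · exact ⟨i, key i j h hij⟩
    · exact ⟨j, key j i h hij.symm⟩
  have hdesc : ∀ n, Commute w₁ (x (n + 1)) → Commute w₁ (x n) := by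
    intro n hc
    by_cases hw : w₁ = 1
    · rw [hw]
      exact Commute.one_left _
    · have h3 : x n * w₁⁻¹ * (x n)⁻¹ = w₁⁻¹ * x (n + 1) := by
        rw [hxs, commutatorElement_def]
        group
      have h4 : Commute w₁⁻¹ (x n * w₁⁻¹ * (x n)⁻¹) := by
        rw [h3]
        exact (Commute.refl _).mul_right hc.inv_left
      have h5 := hcsa (x n) w₁⁻¹ (inv_ne_one.2 hw) h4
      exact (Commute.inv_right_iff.1 h5).symm
  obtain ⟨n, hn⟩ := hex
  have hdown : ∀ n, Commute w₁ (x n) → Commute w₁ (x 0) := by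
    intro n
    induction n with
    | zero => exact id
    | succ n ih => exact fun h => ih (hdesc n h)
  have hc : Commute w₁ (x n) := by
    rw [hn]
    exact Commute.one_right _
  exact hdown n hc

end Pool.Agent.SG
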